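import Mathlib

/-!
# MP_fe3493_lc: digraphs, reachable pairs, Hasse diagrams, attaching sources and sinks
-/

open Relation

namespace Pool.Agent.MP_fe3493

/-- The size of the transitive closure: the number of ordered pairs `(u, v)` such that `v` is reachable from `u`. -/
noncomputable def tcSize {V : Type} (r : V → V → Prop) : ℕ :=
  Nat.card {p : V × V // ReflTransGen r p.1 p.2}

/-- The number of arcs. -/
noncomputable def arcs {V : Type} (r : V → V → Prop) : ℕ :=
  Nat.card {p : V × V // r p.1 p.2}

/-- The digraph is the Hasse diagram of a partially ordered set: there are no directed cycles, and if `x → y` is an arc,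
there is no other directed path from `x` to `y`. -/
def IsHasse {V : Type} (r : V → V → Prop) : Prop :=
  (∀ x, ¬ TransGen r x x) ∧ ∀ x y z, r x y → r x z → ReflTransGen r z y → z = y

/-- At every vertex the number of out-going arcs plus the number of in-going arcs is at most three. -/
def Subcubic {V : Type} (r : V → V → Prop) : Prop :=
  ∀ x, {y | r x y}.encard + {y | r y x}.encard ≤ 3

/-- Attach to the digraph `R` a new source in front of `f a` for every `a`, and a new sink behind `g b` for every `b`. -/
def Att {C A B : Type} (R : C → C → Prop) (f : A → C) (g : B → C) : C ⊕ (A ⊕ B) → C ⊕ (A ⊕ B) → Prop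
  | Sum.inl x, Sum.inl y => R x y
  | Sum.inr (Sum.inl a), Sum.inl y => y = f a
  | Sum.inl x, Sum.inr (Sum.inr b) => x = g b
  | _, _ => False

section

variable {C A B : Type} (R : C → C → Prop) (f : A → C) (g : B → C)

/-- Reachability after attaching sources and sinks. -/
def Reach : C ⊕ (A ⊕ B) → C ⊕ (A ⊕ B) → Prop
  | Sum.inl x, Sum.inl y => ReflTransGen R x y
  | Sum.inl _, Sum.inr (Sum.inl _) => False
  | Sum.inl x, Sum.inr (Sum.inr b) => ReflTransGen R x (g b)
  | Sum.inr (Sum.inl a), Sum.inl y => ReflTransGen R (f a) y
  | Sum.inr (Sum.inl a), Sum.inr (Sum.inl a') => a = a'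
  | Sum.inr (Sum.inl a), Sum.inr (Sum.inr b) => ReflTransGen R (f a) (g b)
  | Sum.inr (Sum.inr _), Sum.inl _ => False
  | Sum.inr (Sum.inr _), Sum.inr (Sum.inl _) => False
  | Sum.inr (Sum.inr b), Sum.inr (Sum.inr b') => b = b'

theorem reach_refl (x : C ⊕ (A ⊕ B)) : Reach R f g x x := by
  rcases x with x | a | b
  · exact ReflTransGen.refl
  · rfl
  · rfl

theorem reach_step (x y z : C ⊕ (A ⊕ B)) (h : Reach R f g x y) (h' : Att R f g y z) : Reach R f g x z := by
  rcases x with x | a | b <;> rcases y with y | c | d <;> rcases z with z | e | k <;>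
    simp only [Reach, Att] at h h' ⊢
  · exact h.tail h'
  · subst h'; exact h
  · exact h.tail h'
  · subst h'; exact h
  · subst h; subst h'; exact ReflTransGen.refl

theorem lift_core (x y : C) (h : ReflTransGen R x y) : ReflTransGen (Att R f g) (Sum.inl x) (Sum.inl y) :=
  ReflTransGen.lift (p := Att R f g) Sum.inl (fun _ _ h => h) _ _ h

/-- Reachability in the digraph with attached sources and sinks. -/
theorem att_iff (x y : C ⊕ (A ⊕ B)) : ReflTransGen (Att R f g) x y ↔ Reach R f g x y := by
  constructor
  · intro h
    induction h with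
    | refl => exact reach_refl R f g x
    | tail _ h2 ih => exact reach_step R f g _ _ _ ih h2
  · intro h
    rcases x with x | a | b <;> rcases y with y | c | d <;> simp only [Reach] at h
    · exact lift_core R f g x y h
    · exact (lift_core R f g x _ h).tail (show Att R f g (Sum.inl (g d)) (Sum.inr (Sum.inr d)) from rfl)
    · exact ReflTransGen.head (show Att R f g (Sum.inr (Sum.inl a)) (Sum.inl (f a)) from rfl) (lift_core R f g _ y h)
    · subst h; exact ReflTransGen.refl
    · exact ReflTransGen.head (show Att R f g (Sum.inr (Sum.inl a)) (Sum.inl (f a)) from rfl)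
        ((lift_core R f g _ _ h).tail (show Att R f g (Sum.inl (g d)) (Sum.inr (Sum.inr d)) from rfl))
    · subst h; exact ReflTransGen.refl

/-- `1` if `P` holds, `0` if not. -/
noncomputable def ind (P : Prop) : ℕ := @ite ℕ P (Classical.propDecidable P) 1 0

theorem ind_false : ind False = 0 := if_neg id

theorem sum_ind_eq {X : Type} [Fintype X] (x : X) : ∑ y, ind (x = y) = 1 := by
  classical
  have h : ∀ y, ind (x = y) = if x = y then 1 else 0 := fun y => by
    by_cases h : x = y
    · rw [if_pos h]; exact if_pos h
    · rw [if_neg h]; exact if_neg h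
  simp only [h, Finset.sum_ite_eq, Finset.mem_univ, if_true]

theorem cnt_eq {X Y : Type} [Fintype X] [Fintype Y] (P : X → Y → Prop) :
    Nat.card {p : X × Y // P p.1 p.2} = ∑ x, ∑ y, ind (P x y) := by
  classical
  rw [Nat.card_eq_fintype_card, Fintype.card_subtype, Finset.card_filter, Fintype.sum_prod_type]
  refine Finset.sum_congr rfl fun x _ => Finset.sum_congr rfl fun y _ => ?_
  by_cases h : P x y
  · rw [if_pos h]; exact (if_pos h).symm
  · rw [if_neg h]; exact (if_neg h).symm

/-- The number of reachable pairs after attaching sources and sinks. -/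
theorem tcSize_att [Fintype C] [Fintype A] [Fintype B] : tcSize (Att R f g) =
    tcSize R + (∑ a, ∑ y, ind (ReflTransGen R (f a) y)) + (∑ b, ∑ x, ind (ReflTransGen R x (g b))) +
      (∑ a, ∑ b, ind (ReflTransGen R (f a) (g b))) + Fintype.card A + Fintype.card B := by
  unfold tcSize
  rw [cnt_eq (ReflTransGen (Att R f g)), cnt_eq (ReflTransGen R)]
  simp only [att_iff]
  simp only [Fintype.sum_sum_type, Reach, ind_false, Finset.sum_const_zero, zero_add, add_zero,
    Finset.sum_add_distrib, sum_ind_eq, Finset.sum_const, smul_eq_mul, mul_one, Finset.card_univ]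
  rw [Finset.sum_comm (f := fun (x : C) (b : B) => ind (ReflTransGen R x (g b)))]
  ring

end

/-- If there are no directed cycles and every arc is the only one which leaves its tail or the only one which enters its
head, the digraph is a Hasse diagram. -/
theorem isHasse_of {V : Type} {r : V → V → Prop} (h0 : ∀ x, ¬ TransGen r x x)
    (h1 : ∀ x y, r x y → (∀ z, r x z → z = y) ∨ ∀ u, r u y → u = x) : IsHasse r := by
  refine ⟨h0, fun x y z hxy hxz hzy => ?_⟩
  rcases h1 x y hxy with h | h
  · exact h z hxz
  · rcases ReflTransGen.cases_tail hzy with h2 | ⟨u, h2, h3⟩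
    · exact h2.symm
    · exfalso
      rw [h u h3] at h2
      exact h0 x (TransGen.head' hxz h2)

theorem att_acyclic {C A B : Type} {R : C → C → Prop} (f : A → C) (g : B → C) (h : ∀ x, ¬ TransGen R x x)
    (x : C ⊕ (A ⊕ B)) : ¬ TransGen (Att R f g) x x := by
  intro hx
  obtain ⟨y, h1, h2⟩ := TransGen.head'_iff.1 hx
  rw [att_iff] at h2
  rcases x with x | a | b <;> rcases y with y | c | d <;> simp only [Reach, Att] at h1 h2
  exact h x (TransGen.head' h1 h2)

end Pool.Agent.MP_fe3493
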