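import Pool.Agent.Lib.MP_fe3493_lc.Gad

/-!
# MP_fe3493_lc: the condensation of a digraph, and the count
-/

open Relation

namespace Pool.Agent.MP_fe3493

/-- The vertices of the condensation: for every vertex `v` an initial copy `src v` and a final copy `snk v`, and for every
strong component `k` a vertex `mid k`. -/
inductive Cv (V K : Type) : Type
  | src (v : V) : Cv V K
  | mid (k : K) : Cv V K
  | snk (v : V) : Cv V K

variable {V K : Type}

/-- The position of a vertex of the condensation. -/
def Cv.pos : Cv V K → V ⊕ₗ (K ⊕ₗ V)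
  | Cv.src v => Sum.inlₗ v
  | Cv.mid k => Sum.inrₗ (Sum.inlₗ k)
  | Cv.snk v => Sum.inrₗ (Sum.inrₗ v)

theorem pos_inj : Function.Injective (Cv.pos : Cv V K → V ⊕ₗ (K ⊕ₗ V)) := by
  intro x y h
  cases x <;> cases y <;> simp only [Cv.pos] at h
  · exact congrArg _ (Sum.inl.inj (toLex.injective h))
  · exact absurd (toLex.injective h) (by simp)
  · exact absurd (toLex.injective h) (by simp)
  · exact absurd (toLex.injective h) (by simp)
  · exact congrArg _ (Sum.inl.inj (toLex.injective (Sum.inr.inj (toLex.injective h))))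
  · exact absurd (toLex.injective (Sum.inr.inj (toLex.injective h))) (by simp)
  · exact absurd (toLex.injective h) (by simp)
  · exact absurd (toLex.injective (Sum.inr.inj (toLex.injective h))) (by simp)
  · exact congrArg _ (Sum.inr.inj (toLex.injective (Sum.inr.inj (toLex.injective h))))

/-- First the initial copies, then the strong components, then the final copies. -/
noncomputable instance [LinearOrder V] [LinearOrder K] : LinearOrder (Cv V K) := LinearOrder.lift' Cv.pos pos_inj

/-- The condensation of the digraph `r` with strong components given by `c`: the arcs `src v → mid (c v)`,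
`mid (c v) → snk v`, and `mid k → mid l` if `k ≠ l` and there is an arc of `r` from the component `k` to `l`. -/
def Cond (r : V → V → Prop) (c : V → K) : Cv V K → Cv V K → Prop
  | Cv.src v, Cv.mid k => k = c v
  | Cv.mid k, Cv.mid l => k ≠ l ∧ ∃ u v, r u v ∧ c u = k ∧ c v = l
  | Cv.mid k, Cv.snk v => k = c v
  | _, _ => False

variable (r : V → V → Prop) (c : V → K)

theorem cond_lt [LinearOrder V] [LinearOrder K] (hm : ∀ u v, r u v → c u ≤ c v) (x y : Cv V K) (h : Cond r c x y) :
    x < y := by
  show Cv.pos x < Cv.pos y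
  cases x <;> cases y <;> simp only [Cond] at h
  · exact Sum.Lex.inl_lt_inr _ _
  · obtain ⟨h1, u, v, h2, rfl, rfl⟩ := h
    exact Sum.Lex.inr_lt_inr_iff.2 (Sum.Lex.inl_lt_inl_iff.2 (lt_of_le_of_ne (hm u v h2) h1))
  · exact Sum.Lex.inr_lt_inr_iff.2 (Sum.Lex.inl_lt_inr _ _)

/-- What is reachable from an initial copy. -/
private def Inv (u : V) : Cv V K → Prop
  | Cv.src _ => True
  | Cv.mid k => ∀ w, c w = k → ReflTransGen r u w
  | Cv.snk w => ReflTransGen r u w

theorem cond_reach [Preorder K] (hs : ∀ u v, c u = c v → ReflTransGen r u v) (u v : V) :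
    ReflTransGen (Cond r c) (Cv.src u) (Cv.snk v) ↔ ReflTransGen r u v := by
  constructor
  · intro h
    suffices h1 : ∀ y, ReflTransGen (Cond r c) (Cv.src u) y → (y = Cv.src u ∨ ∀ w, y ≠ Cv.src w) ∧ Inv r c u y from
      (h1 _ h).2
    intro y hy
    induction hy with
    | refl => exact ⟨Or.inl rfl, trivial⟩
    | @tail y z h1 h2 ih =>
      obtain ⟨ih1, ih2⟩ := ih
      rcases y with w | k | w <;> rcases z with x | l | x <;> simp only [Cond] at h2
      · refine ⟨Or.inr (fun w h => by cases h), ?_⟩
        rcases ih1 with h3 | h3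
        · cases h3
          intro x hx
          exact hs u x (h2.symm.trans hx.symm)
        · exact absurd rfl (h3 w)
      · refine ⟨Or.inr (fun w h => by cases h), ?_⟩
        obtain ⟨h3, a, b, h4, h5, h6⟩ := h2
        intro x hx
        exact ((ih2 a h5).tail h4).trans (hs b x (h6.trans hx.symm))
      · exact ⟨Or.inr (fun w h => by cases h), ih2 x h2.symm⟩
  · intro h
    have h1 : ReflTransGen (Cond r c) (Cv.mid (c u)) (Cv.mid (c v)) := by
      induction h with
      | refl => exact ReflTransGen.refl
      | @tail x y h2 h3 ih =>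
        by_cases h4 : c x = c y
        · rw [← h4]; exact ih
        · exact ih.tail (show Cond r c (Cv.mid (c x)) (Cv.mid (c y)) from ⟨h4, x, y, h3, rfl, rfl⟩)
    exact ReflTransGen.head (show Cond r c (Cv.src u) (Cv.mid (c u)) from rfl)
      (h1.tail (show Cond r c (Cv.mid (c v)) (Cv.snk v) from rfl))

theorem card_le_of_cover {X Y : Type} [Finite X] {P : Y → Prop} (g : X → Y) (h : ∀ p, P p → ∃ x, g x = p) :
    Nat.card {p // P p} ≤ Nat.card X := by
  refine Nat.card_le_card_of_injective (fun p : {p // P p} => (h p.1 p.2).choose) fun p q hpq => ?_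
  have h1 := (h p.1 p.2).choose_spec
  have h2 := (h q.1 q.2).choose_spec
  simp only at hpq
  rw [hpq, h2] at h1
  exact Subtype.ext h1.symm

theorem arcs_cond [Finite V] : arcs (Cond r c) ≤ 2 * Nat.card V + arcs r := by
  have h1 := card_le_of_cover (X := V ⊕ ({p : V × V // r p.1 p.2} ⊕ V)) (P := fun p : Cv V K × Cv V K => Cond r c p.1 p.2)
    (fun x => match x with
      | Sum.inl v => (Cv.src v, Cv.mid (c v))
      | Sum.inr (Sum.inl p) => (Cv.mid (c p.1.1), Cv.mid (c p.1.2))
      | Sum.inr (Sum.inr v) => (Cv.mid (c v), Cv.snk v)) (by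
    rintro ⟨x, y⟩ h
    rcases x with w | k | w <;> rcases y with x | l | x <;> simp only [Cond] at h
    · exact ⟨Sum.inl w, by rw [h]⟩
    · obtain ⟨_, u, v, h2, rfl, rfl⟩ := h
      exact ⟨Sum.inr (Sum.inl ⟨(u, v), h2⟩), rfl⟩
    · exact ⟨Sum.inr (Sum.inr x), by rw [h]⟩)
  have h2 : Nat.card (V ⊕ ({p : V × V // r p.1 p.2} ⊕ V)) = 2 * Nat.card V + arcs r := by
    rw [Nat.card_sum, Nat.card_sum]
    unfold arcs
    ring
  exact h1.trans h2.le

/-- The vertices of the condensation are counted. -/
def cvEquiv : Cv V K ≃ V ⊕ (K ⊕ V) where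
  toFun
    | Cv.src v => Sum.inl v
    | Cv.mid k => Sum.inr (Sum.inl k)
    | Cv.snk v => Sum.inr (Sum.inr v)
  invFun
    | Sum.inl v => Cv.src v
    | Sum.inr (Sum.inl k) => Cv.mid k
    | Sum.inr (Sum.inr v) => Cv.snk v
  left_inv x := by cases x <;> rfl
  right_inv x := by rcases x with x | x | x <;> rfl

theorem card_core {W : Type} [Finite W] (d : W → W → Prop) : Nat.card (Core d) = 2 * Nat.card W + 3 * arcs d := by
  rw [Nat.card_congr (coreEquiv d), Nat.card_sum, Nat.card_sum, Nat.card_sum, Nat.card_sum]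
  unfold arcs
  ring

theorem finite_core {W : Type} [Finite W] (d : W → W → Prop) : Finite (Core d) := Finite.of_equiv _ (coreEquiv d).symm

theorem finite_cv [Finite V] [Finite K] : Finite (Cv V K) := Finite.of_equiv _ cvEquiv.symm

theorem sum_flag [Fintype V] (a : Bool) (F : V → ℕ) : ∑ v : {_v : V // a = true}, F v.1 = if a = true then ∑ v, F v else 0 := by
  cases a with
  | false =>
    rw [if_neg (by simp)]
    have : IsEmpty {_v : V // false = true} := ⟨fun v => absurd v.2 (by simp)⟩
    exact Fintype.sum_empty _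
  | true =>
    rw [if_pos rfl]
    exact Fintype.sum_equiv (Equiv.subtypeUnivEquiv (fun _ => rfl)) _ _ (fun _ => rfl)

end Pool.Agent.MP_fe3493
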