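import Pool.Agent.Lib.MP_fe3493_lc.Att

/-!
# MP_fe3493_lc: the cubic digraph of a topologically sorted acyclic digraph
-/

open Relation

namespace Pool.Agent.MP_fe3493

/-- The inner vertices: for every vertex `v` of `r` the vertices `hin v`, `hout v`, and for every arc `v → w` of `r` the
vertices `p v w` (a port of `v`), `e v w` and `q v w` (a port of `w`). -/
inductive Core {V : Type} (r : V → V → Prop) : Type
  | hin (v : V) : Core r
  | hout (v : V) : Core r
  | p (v w : V) (h : r v w) : Core r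
  | e (v w : V) (h : r v w) : Core r
  | q (v w : V) (h : r v w) : Core r

/-- The arcs between the inner vertices: `hin v → hout v`; from `hout v` a path through the ports `p v w`, `w` increasing;
`p v w → e v w → q v w`; a path through the ports `q v w`, `v` increasing, which ends in `hin w`. -/
inductive Arc {V : Type} [LinearOrder V] (r : V → V → Prop) : Core r → Core r → Prop
  | hub (v : V) : Arc r (Core.hin v) (Core.hout v)
  | first (v w : V) (h : r v w) (hm : ∀ u, r v u → w ≤ u) : Arc r (Core.hout v) (Core.p v w h)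
  | next (v w x : V) (h : r v w) (k : r v x) (hlt : w < x) (hm : ∀ u, r v u → w < u → x ≤ u) :
      Arc r (Core.p v w h) (Core.p v x k)
  | enter (v w : V) (h : r v w) : Arc r (Core.p v w h) (Core.e v w h)
  | leave (v w : V) (h : r v w) : Arc r (Core.e v w h) (Core.q v w h)
  | step (v x w : V) (h : r v w) (k : r x w) (hlt : v < x) (hm : ∀ u, r u w → v < u → x ≤ u) :
      Arc r (Core.q v w h) (Core.q x w k)
  | last (v w : V) (h : r v w) (hm : ∀ u, r u w → u ≤ v) : Arc r (Core.q v w h) (Core.hin w)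

variable {V : Type} (r : V → V → Prop)

/-- The vertex of `r` to which an inner vertex belongs. -/
def owner : Core r → V
  | Core.hin v => v
  | Core.hout v => v
  | Core.p v _ _ => v
  | Core.e _ w _ => w
  | Core.q _ w _ => w

/-- The second coordinate of the rank. -/
def phase : Core r → ℕ
  | Core.hin _ => 2
  | Core.hout _ => 3
  | Core.p _ _ _ => 4
  | Core.e _ _ _ => 0
  | Core.q _ _ _ => 1

/-- The third coordinate of the rank. -/
def sub : Core r → V
  | Core.hin v => v
  | Core.hout v => v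
  | Core.p _ w _ => w
  | Core.e v _ _ => v
  | Core.q v _ _ => v

variable [LinearOrder V]

theorem arc_owner {x y : Core r} (h : Arc r x y) : ReflTransGen r (owner r x) (owner r y) := by
  cases h with
  | enter v w h => exact ReflTransGen.single h
  | _ => exact ReflTransGen.refl

/-- The rank of an inner vertex. -/
def rk (x : Core r) : V ×ₗ (ℕ ×ₗ V) := toLex (owner r x, toLex (phase r x, sub r x))

theorem rk_lt (hr : ∀ v w, r v w → v < w) {x y : Core r} (h : Arc r x y) : rk r x < rk r y := by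
  cases h with
  | enter v w h => exact Prod.Lex.toLex_lt_toLex.2 (Or.inl (hr v w h))
  | hub v => exact Prod.Lex.toLex_lt_toLex.2 (Or.inr ⟨rfl, Prod.Lex.toLex_lt_toLex.2 (Or.inl (by simp [phase]))⟩)
  | first v w h hm => exact Prod.Lex.toLex_lt_toLex.2 (Or.inr ⟨rfl, Prod.Lex.toLex_lt_toLex.2 (Or.inl (by simp [phase]))⟩)
  | next v w x h k hlt hm => exact Prod.Lex.toLex_lt_toLex.2 (Or.inr ⟨rfl, Prod.Lex.toLex_lt_toLex.2 (Or.inr ⟨rfl, hlt⟩)⟩)
  | leave v w h => exact Prod.Lex.toLex_lt_toLex.2 (Or.inr ⟨rfl, Prod.Lex.toLex_lt_toLex.2 (Or.inl (by simp [phase]))⟩)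
  | step v x w h k hlt hm => exact Prod.Lex.toLex_lt_toLex.2 (Or.inr ⟨rfl, Prod.Lex.toLex_lt_toLex.2 (Or.inr ⟨rfl, hlt⟩)⟩)
  | last v w h hm => exact Prod.Lex.toLex_lt_toLex.2 (Or.inr ⟨rfl, Prod.Lex.toLex_lt_toLex.2 (Or.inl (by simp [phase]))⟩)

theorem core_acyclic (hr : ∀ v w, r v w → v < w) (x : Core r) : ¬ TransGen (Arc r) x x := by
  have h : ∀ x y, TransGen (Arc r) x y → rk r x < rk r y := by
    intro x y h
    induction h with
    | single h => exact rk_lt r hr h
    | tail _ h ih => exact ih.trans (rk_lt r hr h)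
  exact fun hx => lt_irrefl _ (h x x hx)

section

variable [Fintype V]

theorem exists_pred (P : V → Prop) (w : V) (h : ∃ u, P u ∧ u < w) :
    ∃ u, P u ∧ u < w ∧ ∀ t, P t → u < t → w ≤ t := by
  classical
  obtain ⟨u0, h0⟩ := h
  have hne : (Finset.univ.filter fun u => P u ∧ u < w).Nonempty := ⟨u0, Finset.mem_filter.2 ⟨Finset.mem_univ _, h0⟩⟩
  have h1 := Finset.max'_mem _ hne
  have h2 := (Finset.mem_filter.1 h1).2
  refine ⟨_, h2.1, h2.2, fun t ht hlt => ?_⟩
  by_contra hcon
  have h3 := Finset.le_max' (Finset.univ.filter fun u => P u ∧ u < w) t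
    (Finset.mem_filter.2 ⟨Finset.mem_univ _, ht, not_le.1 hcon⟩)
  exact absurd hlt (not_lt.2 h3)

theorem exists_succ (P : V → Prop) (w : V) (h : ∃ u, P u ∧ w < u) :
    ∃ u, P u ∧ w < u ∧ ∀ t, P t → w < t → u ≤ t := by
  classical
  obtain ⟨u0, h0⟩ := h
  have hne : (Finset.univ.filter fun u => P u ∧ w < u).Nonempty := ⟨u0, Finset.mem_filter.2 ⟨Finset.mem_univ _, h0⟩⟩
  have h1 := Finset.min'_mem _ hne
  have h2 := (Finset.mem_filter.1 h1).2
  exact ⟨_, h2.1, h2.2, fun t ht hlt => Finset.min'_le _ t (Finset.mem_filter.2 ⟨Finset.mem_univ _, ht, hlt⟩)⟩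

theorem hout_p (v w : V) (h : r v w) : ReflTransGen (Arc r) (Core.hout v) (Core.p v w h) := by
  induction w using WellFoundedLT.induction with
  | ind w ih =>
    by_cases hw : ∃ u, r v u ∧ u < w
    · obtain ⟨u, h1, h2, h3⟩ := exists_pred (r v) w hw
      exact (ih u h2 h1).tail (Arc.next v u w h1 h h2 h3)
    · refine ReflTransGen.single (Arc.first v w h fun u hu => ?_)
      by_contra hcon
      exact hw ⟨u, hu, not_le.1 hcon⟩

theorem q_hin (v w : V) (h : r v w) : ReflTransGen (Arc r) (Core.q v w h) (Core.hin w) := by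
  induction v using WellFoundedGT.induction with
  | ind v ih =>
    by_cases hv : ∃ u, r u w ∧ v < u
    · obtain ⟨u, h1, h2, h3⟩ := exists_succ (fun u => r u w) v hv
      exact ReflTransGen.head (Arc.step v u w h h1 h2 h3) (ih u h2 h1)
    · refine ReflTransGen.single (Arc.last v w h fun u hu => ?_)
      by_contra hcon
      exact hv ⟨u, hu, not_le.1 hcon⟩

/-- Reachability between the inner vertices `hin v` and `hout w` is reachability in `r`. -/
theorem hin_hout (v w : V) : ReflTransGen (Arc r) (Core.hin v) (Core.hout w) ↔ ReflTransGen r v w := by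
  constructor
  · intro h
    exact ReflTransGen.lift' (owner r) (fun x y hxy => arc_owner r hxy) _ _ h
  · intro h
    induction h with
    | refl => exact ReflTransGen.single (Arc.hub v)
    | @tail b c _ h2 ih =>
      have h3 : ReflTransGen (Arc r) (Core.p b c h2) (Core.q b c h2) :=
        (ReflTransGen.single (Arc.enter b c h2)).tail (Arc.leave b c h2)
      exact (((ih.trans (hout_p r b c h2)).trans h3).trans (q_hin r b c h2)).tail (Arc.hub c)

end

/-- The inner vertices are counted. -/
def coreEquiv : Core r ≃ (V ⊕ V) ⊕ ({x : V × V // r x.1 x.2} ⊕ {x : V × V // r x.1 x.2} ⊕ {x : V × V // r x.1 x.2}) where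
  toFun
    | Core.hin v => Sum.inl (Sum.inl v)
    | Core.hout v => Sum.inl (Sum.inr v)
    | Core.p v w h => Sum.inr (Sum.inl ⟨(v, w), h⟩)
    | Core.e v w h => Sum.inr (Sum.inr (Sum.inl ⟨(v, w), h⟩))
    | Core.q v w h => Sum.inr (Sum.inr (Sum.inr ⟨(v, w), h⟩))
  invFun
    | Sum.inl (Sum.inl v) => Core.hin v
    | Sum.inl (Sum.inr v) => Core.hout v
    | Sum.inr (Sum.inl x) => Core.p x.1.1 x.1.2 x.2
    | Sum.inr (Sum.inr (Sum.inl x)) => Core.e x.1.1 x.1.2 x.2
    | Sum.inr (Sum.inr (Sum.inr x)) => Core.q x.1.1 x.1.2 x.2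
  left_inv x := by cases x <;> rfl
  right_inv x := by
    rcases x with (v | v) | x | x | x <;> rfl

end Pool.Agent.MP_fe3493
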