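import Pool.Agent.Lib.MP_fe3493_lc.Cond

/-!
# MP_fe3493_lc: disjoint unions, and the numbering of the strong components
-/

open Relation

namespace Pool.Agent.MP_fe3493

section

variable {X Y : Type} (r : X → X → Prop) (s : Y → Y → Prop)

/-- Reachability in a disjoint union. -/
private def DReach : X ⊕ Y → X ⊕ Y → Prop
  | Sum.inl x, Sum.inl y => ReflTransGen r x y
  | Sum.inr x, Sum.inr y => ReflTransGen s x y
  | _, _ => False

theorem dis_iff (x y : X ⊕ Y) : ReflTransGen (Sum.LiftRel r s) x y ↔ DReach r s x y := by
  constructor
  · intro h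
    induction h with
    | refl => rcases x with x | x <;> exact ReflTransGen.refl
    | @tail y z _ h2 ih =>
      cases h2 with
      | inl h3 =>
        rcases x with x | x
        · exact ReflTransGen.tail ih h3
        · exact ih
      | inr h3 =>
        rcases x with x | x
        · exact ih
        · exact ReflTransGen.tail ih h3
  · intro h
    rcases x with x | x <;> rcases y with y | y <;> simp only [DReach] at h
    · exact ReflTransGen.lift (p := Sum.LiftRel r s) Sum.inl (fun _ _ h => Sum.LiftRel.inl h) _ _ h
    · exact ReflTransGen.lift (p := Sum.LiftRel r s) Sum.inr (fun _ _ h => Sum.LiftRel.inr h) _ _ h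

theorem tcSize_dis [Finite X] [Finite Y] : tcSize (Sum.LiftRel r s) = tcSize r + tcSize s := by
  have : Fintype X := Fintype.ofFinite _
  have : Fintype Y := Fintype.ofFinite _
  unfold tcSize
  rw [cnt_eq (ReflTransGen (Sum.LiftRel r s)), cnt_eq (ReflTransGen r), cnt_eq (ReflTransGen s)]
  simp only [dis_iff]
  simp only [Fintype.sum_sum_type, DReach, ind_false, Finset.sum_const_zero, zero_add, add_zero]

variable {r s}

theorem isHasse_dis (hr : IsHasse r) (hs : IsHasse s) : IsHasse (Sum.LiftRel r s) := by
  constructor
  · intro x hx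
    obtain ⟨y, h1, h2⟩ := TransGen.head'_iff.1 hx
    rw [dis_iff] at h2
    cases h1 with
    | inl h3 => exact hr.1 _ (TransGen.head' h3 h2)
    | inr h3 => exact hs.1 _ (TransGen.head' h3 h2)
  · intro x y z h1 h2 h3
    rw [dis_iff] at h3
    cases h1 with
    | inl h4 => cases h2 with
      | inl h5 => rw [hr.2 _ _ _ h4 h5 h3]
    | inr h4 => cases h2 with
      | inr h5 => rw [hs.2 _ _ _ h4 h5 h3]

theorem subcubic_dis (hr : Subcubic r) (hs : Subcubic s) : Subcubic (Sum.LiftRel r s) := by
  rintro (x | x)
  · have h1 : {y | Sum.LiftRel r s (Sum.inl x) y} = Sum.inl '' {y | r x y} := by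
      ext y
      constructor
      · intro h
        rcases y with y | y
        · exact ⟨y, (Sum.liftRel_inl_inl (r := r) (s := s)).1 h, rfl⟩
        · exact absurd h Sum.not_liftRel_inl_inr
      · rintro ⟨y, hy, rfl⟩
        exact Sum.LiftRel.inl hy
    have h2 : {y | Sum.LiftRel r s y (Sum.inl x)} = Sum.inl '' {y | r y x} := by
      ext y
      constructor
      · intro h
        rcases y with y | y
        · exact ⟨y, (Sum.liftRel_inl_inl (r := r) (s := s)).1 h, rfl⟩
        · exact absurd h Sum.not_liftRel_inr_inl
      · rintro ⟨y, hy, rfl⟩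
        exact Sum.LiftRel.inl hy
    rw [h1, h2, Sum.inl_injective.encard_image, Sum.inl_injective.encard_image]
    exact hr x
  · have h1 : {y | Sum.LiftRel r s (Sum.inr x) y} = Sum.inr '' {y | s x y} := by
      ext y
      constructor
      · intro h
        rcases y with y | y
        · exact absurd h Sum.not_liftRel_inr_inl
        · exact ⟨y, (Sum.liftRel_inr_inr (r := r) (s := s)).1 h, rfl⟩
      · rintro ⟨y, hy, rfl⟩
        exact Sum.LiftRel.inr hy
    have h2 : {y | Sum.LiftRel r s y (Sum.inr x)} = Sum.inr '' {y | s y x} := by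
      ext y
      constructor
      · intro h
        rcases y with y | y
        · exact absurd h Sum.not_liftRel_inl_inr
        · exact ⟨y, (Sum.liftRel_inr_inr (r := r) (s := s)).1 h, rfl⟩
      · rintro ⟨y, hy, rfl⟩
        exact Sum.LiftRel.inr hy
    rw [h1, h2, Sum.inr_injective.encard_image, Sum.inr_injective.encard_image]
    exact hs x

end

/-- The strong components of every digraph can be numbered in topological order. -/
theorem exists_numbering {V : Type} (r : V → V → Prop) : ∃ (K : Type) (_ : LinearOrder K) (c : V → K),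
    Function.Surjective c ∧ (∀ u v, r u v → c u ≤ c v) ∧ ∀ u v, c u = c v → ReflTransGen r u v := by
  let _ : Preorder V :=
    { le := ReflTransGen r
      le_refl := fun _ => ReflTransGen.refl
      le_trans := fun _ _ _ h1 h2 => h1.trans h2 }
  refine ⟨LinearExtension (Antisymmetrization V (· ≤ ·)), inferInstance,
    fun v => toLinearExtension (toAntisymmetrization (· ≤ ·) v), ?_, ?_, ?_⟩
  · intro k
    obtain ⟨v, hv⟩ := Quotient.exists_rep (k : Antisymmetrization V (· ≤ ·))
    exact ⟨v, hv⟩
  · intro u v h
    exact toLinearExtension.monotone (toAntisymmetrization_mono (ReflTransGen.single h))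
  · intro u v h
    have h1 : toAntisymmetrization (· ≤ ·) u = toAntisymmetrization (· ≤ ·) v := h
    exact (Quotient.exact h1).1

end Pool.Agent.MP_fe3493
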