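import Pool.Agent.Lib.MP_fe3493_lc.Core

/-!
# MP_fe3493_lc: the four digraphs
-/

open Relation

namespace Pool.Agent.MP_fe3493

variable {V : Type} (r : V → V → Prop)

variable [LinearOrder V]

/-- The digraph with a source in front of `hin (f a)` for every `a`, and a sink behind `hout (g b)` for every `b`. -/
def Gad {A B : Type} (f : A → V) (g : B → V) : Core r ⊕ (A ⊕ B) → Core r ⊕ (A ⊕ B) → Prop :=
  Att (Arc r) (fun a => Core.hin (f a)) (fun b => Core.hout (g b))

theorem arc_local {x y : Core r} (h : Arc r x y) :
    ((∀ z, Arc r x z → z = y) ∧ ∀ v, x ≠ Core.hout v) ∨ ((∀ u, Arc r u y → u = x) ∧ ∀ v, y ≠ Core.hin v) := by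
  cases h with
  | hub v => exact Or.inl ⟨fun z hz => by cases hz; rfl, fun v h => by cases h⟩
  | first v w h hm =>
    refine Or.inr ⟨fun u hu => ?_, fun v h => by cases h⟩
    cases hu with
    | first _ _ _ _ => rfl
    | next _ w' _ h' _ hlt _ => exact absurd (hm w' h') (not_le.2 hlt)
  | next v w x h k hlt hm =>
    refine Or.inr ⟨fun u hu => ?_, fun v h => by cases h⟩
    cases hu with
    | first _ _ _ hm' => exact absurd (hm' w h) (not_le.2 hlt)
    | next _ w' _ h' _ hlt' hm' =>
      rcases lt_trichotomy w w' with h1 | h1 | h1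
      · exact absurd (hm w' h' h1) (not_le.2 hlt')
      · subst h1; rfl
      · exact absurd (hm' w h h1) (not_le.2 hlt)
  | enter v w h => exact Or.inr ⟨fun u hu => by cases hu; rfl, fun v h => by cases h⟩
  | leave v w h => exact Or.inl ⟨fun z hz => by cases hz; rfl, fun v h => by cases h⟩
  | step v x w h k hlt hm =>
    refine Or.inl ⟨fun z hz => ?_, fun v h => by cases h⟩
    cases hz with
    | step _ x' _ _ k' hlt' hm' =>
      rcases lt_trichotomy x x' with h1 | h1 | h1
      · exact absurd (hm' x k hlt) (not_le.2 h1)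
      · subst h1; rfl
      · exact absurd (hm x' k' hlt') (not_le.2 h1)
    | last _ _ _ hm' => exact absurd (hm' x k) (not_le.2 hlt)
  | last v w h hm =>
    refine Or.inl ⟨fun z hz => ?_, fun v h => by cases h⟩
    cases hz with
    | step _ x' _ _ k' hlt' _ => exact absurd (hm x' k') (not_le.2 hlt')
    | last _ _ _ _ => rfl

variable {A B : Type} (f : A → V) (g : B → V)

theorem gad_isHasse (hr : ∀ v w, r v w → v < w) : IsHasse (Gad r f g) := by
  refine isHasse_of (att_acyclic _ _ (core_acyclic r hr)) fun x y h => ?_
  rcases x with x | x | x <;> rcases y with y | y | y <;> simp only [Gad, Att] at h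
  · rcases arc_local r h with ⟨h1, h2⟩ | ⟨h1, h2⟩
    · refine Or.inl fun z hz => ?_
      rcases z with z | z | z <;> simp only [Gad, Att] at hz
      · rw [h1 z hz]
      · exact absurd hz (h2 _)
    · refine Or.inr fun u hu => ?_
      rcases u with u | u | u <;> simp only [Gad, Att] at hu
      · rw [h1 u hu]
      · exact absurd hu (h2 _)
  · refine Or.inr fun u hu => ?_
    rcases u with u | u | u <;> simp only [Gad, Att] at hu
    rw [hu, h]
  · refine Or.inl fun z hz => ?_
    rcases z with z | z | z <;> simp only [Gad, Att] at hz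
    rw [hz, h]

theorem two {X : Type} {s : Set X} (P : X → Prop) (h1 : ∀ x y, x ∈ s → y ∈ s → P x → P y → x = y)
    (h2 : ∀ x y, x ∈ s → y ∈ s → ¬ P x → ¬ P y → x = y) : s.encard ≤ 2 := by
  have h3 : s ⊆ {x ∈ s | P x} ∪ {x ∈ s | ¬ P x} := fun x hx => by
    by_cases h : P x
    · exact Or.inl ⟨hx, h⟩
    · exact Or.inr ⟨hx, h⟩
  have h4 : {x ∈ s | P x}.encard ≤ 1 := Set.encard_le_one_iff.2 fun x y hx hy => h1 x y hx.1 hy.1 hx.2 hy.2
  have h5 : {x ∈ s | ¬ P x}.encard ≤ 1 := Set.encard_le_one_iff.2 fun x y hx hy => h2 x y hx.1 hy.1 hx.2 hy.2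
  calc s.encard ≤ ({x ∈ s | P x} ∪ {x ∈ s | ¬ P x}).encard := Set.encard_le_encard h3
    _ ≤ {x ∈ s | P x}.encard + {x ∈ s | ¬ P x}.encard := Set.encard_union_le _ _
    _ ≤ 1 + 1 := add_le_add h4 h5
    _ = 2 := by norm_num

theorem gad_subcubic (hf : Function.Injective f) (hg : Function.Injective g) : Subcubic (Gad r f g) := by
  intro x
  rcases x with x | s | z
  · cases x with
    | hin v =>
      have h1 : {y | Gad r f g (Sum.inl (Core.hin v)) y}.encard ≤ 1 := by
        rw [Set.encard_le_one_iff]
        rintro (y | y | y) (z | z | z) hy hz <;> simp only [Set.mem_ofPred_eq, Gad, Att] at hy hz <;>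
          cases hy <;> cases hz
        rfl
      have h2 : {y | Gad r f g y (Sum.inl (Core.hin v))}.encard ≤ 2 := by
        refine two (fun y => ∃ u, y = Sum.inl u) ?_ ?_
        · rintro _ _ hx hy ⟨x, rfl⟩ ⟨y, rfl⟩
          simp only [Set.mem_ofPred_eq, Gad, Att] at hx hy
          cases hx with
          | last u _ h hm =>
            cases hy with
            | last u' _ h' hm' =>
              have h3 := le_antisymm (hm u' h') (hm' u h)
              subst h3; rfl
        · rintro (x | x | x) (y | y | y) hx hy nx ny <;> simp only [Set.mem_ofPred_eq, Gad, Att] at hx hy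
          · exact absurd ⟨x, rfl⟩ nx
          · exact absurd ⟨x, rfl⟩ nx
          · exact absurd ⟨y, rfl⟩ ny
          · have h3 : f x = f y := Core.hin.inj (hx.symm.trans hy)
            rw [hf h3]
      calc _ ≤ (1 : ℕ∞) + 2 := add_le_add h1 h2
        _ = 3 := by norm_num
    | hout v =>
      have h1 : {y | Gad r f g (Sum.inl (Core.hout v)) y}.encard ≤ 2 := by
        refine two (fun y => ∃ u, y = Sum.inl u) ?_ ?_
        · rintro _ _ hx hy ⟨x, rfl⟩ ⟨y, rfl⟩
          simp only [Set.mem_ofPred_eq, Gad, Att] at hx hy
          cases hx with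
          | first _ w h hm =>
            cases hy with
            | first _ w' h' hm' =>
              have h3 := le_antisymm (hm w' h') (hm' w h)
              subst h3; rfl
        · rintro (x | x | x) (y | y | y) hx hy nx ny <;> simp only [Set.mem_ofPred_eq, Gad, Att] at hx hy
          · exact absurd ⟨x, rfl⟩ nx
          · exact absurd ⟨x, rfl⟩ nx
          · exact absurd ⟨y, rfl⟩ ny
          · have h3 : g x = g y := Core.hout.inj (hx.symm.trans hy)
            rw [hg h3]
      have h2 : {y | Gad r f g y (Sum.inl (Core.hout v))}.encard ≤ 1 := by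
        rw [Set.encard_le_one_iff]
        rintro (y | y | y) (z | z | z) hy hz <;> simp only [Set.mem_ofPred_eq, Gad, Att] at hy hz <;>
          cases hy <;> cases hz
        rfl
      calc _ ≤ (2 : ℕ∞) + 1 := add_le_add h1 h2
        _ = 3 := by norm_num
    | p v w h =>
      have h1 : {y | Gad r f g (Sum.inl (Core.p v w h)) y}.encard ≤ 2 := by
        refine two (fun y => y = Sum.inl (Core.e v w h)) (fun x y _ _ hx hy => hx.trans hy.symm) ?_
        rintro (x | x | x) (y | y | y) hx hy nx ny <;> simp only [Set.mem_ofPred_eq, Gad, Att] at hx hy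
        · cases hx with
          | enter _ _ _ => exact absurd rfl nx
          | next _ _ x _ k hlt hm =>
            cases hy with
            | enter _ _ _ => exact absurd rfl ny
            | next _ _ x' _ k' hlt' hm' =>
              have h3 := le_antisymm (hm x' k' hlt') (hm' x k hlt)
              subst h3; rfl
        · cases hy
        · cases hx
        · cases hx
      have h2 : {y | Gad r f g y (Sum.inl (Core.p v w h))}.encard ≤ 1 := by
        rw [Set.encard_le_one_iff]
        rintro (y | y | y) (z | z | z) hy hz <;> simp only [Set.mem_ofPred_eq, Gad, Att] at hy hz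
        · rcases arc_local r hy with ⟨h3, h4⟩ | ⟨h3, h4⟩
          · cases hy with
            | first _ _ _ _ => exact absurd rfl (h4 v)
            | next _ w' _ h' _ _ _ =>
              exact absurd (h3 _ (Arc.enter v w' h')) (by intro h; cases h)
          · rw [h3 z hz]
        · cases hz
        · cases hy
        · cases hy
      calc _ ≤ (2 : ℕ∞) + 1 := add_le_add h1 h2
        _ = 3 := by norm_num
    | e v w h =>
      have h1 : {y | Gad r f g (Sum.inl (Core.e v w h)) y}.encard ≤ 1 := by
        rw [Set.encard_le_one_iff]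
        rintro (y | y | y) (z | z | z) hy hz <;> simp only [Set.mem_ofPred_eq, Gad, Att] at hy hz <;>
          cases hy <;> cases hz
        rfl
      have h2 : {y | Gad r f g y (Sum.inl (Core.e v w h))}.encard ≤ 1 := by
        rw [Set.encard_le_one_iff]
        rintro (y | y | y) (z | z | z) hy hz <;> simp only [Set.mem_ofPred_eq, Gad, Att] at hy hz <;>
          cases hy <;> cases hz
        rfl
      calc _ ≤ (1 : ℕ∞) + 1 := add_le_add h1 h2
        _ ≤ 3 := by norm_num
    | q v w h =>
      have h1 : {y | Gad r f g (Sum.inl (Core.q v w h)) y}.encard ≤ 1 := by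
        rw [Set.encard_le_one_iff]
        rintro (y | y | y) (z | z | z) hy hz <;> simp only [Set.mem_ofPred_eq, Gad, Att] at hy hz
        · rcases arc_local r hy with ⟨h3, h4⟩ | ⟨h3, h4⟩
          · rw [h3 z hz]
          · cases hy with
            | step _ x _ _ k _ _ =>
              exact absurd (h3 _ (Arc.leave x w k)) (by intro h; cases h)
            | last _ _ _ _ => exact absurd rfl (h4 w)
        · cases hz
        · cases hy
        · cases hy
      have h2 : {y | Gad r f g y (Sum.inl (Core.q v w h))}.encard ≤ 2 := by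
        refine two (fun y => y = Sum.inl (Core.e v w h)) (fun x y _ _ hx hy => hx.trans hy.symm) ?_
        rintro (x | x | x) (y | y | y) hx hy nx ny <;> simp only [Set.mem_ofPred_eq, Gad, Att] at hx hy
        · cases hx with
          | leave _ _ _ => exact absurd rfl nx
          | step x _ _ k _ hlt hm =>
            cases hy with
            | leave _ _ _ => exact absurd rfl ny
            | step x' _ _ k' _ hlt' hm' =>
              rcases lt_trichotomy x x' with h1 | h1 | h1
              · exact absurd (hm x' k' h1) (not_le.2 hlt')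
              · subst h1; rfl
              · exact absurd (hm' x k h1) (not_le.2 hlt)
        · cases hy
        · cases hx
        · cases hx
      calc _ ≤ (1 : ℕ∞) + 2 := add_le_add h1 h2
        _ = 3 := by norm_num
  · have h1 : {y | Gad r f g (Sum.inr (Sum.inl s)) y}.encard ≤ 1 := by
      rw [Set.encard_le_one_iff]
      rintro (y | y | y) (z | z | z) hy hz <;> simp only [Set.mem_ofPred_eq, Gad, Att] at hy hz
      rw [hy, hz]
    have h2 : {y | Gad r f g y (Sum.inr (Sum.inl s))}.encard ≤ 1 := by
      rw [Set.encard_le_one_iff]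
      rintro (y | y | y) (z | z | z) hy hz <;> simp only [Set.mem_ofPred_eq, Gad, Att] at hy hz
    calc _ ≤ (1 : ℕ∞) + 1 := add_le_add h1 h2
      _ ≤ 3 := by norm_num
  · have h1 : {y | Gad r f g (Sum.inr (Sum.inr z)) y}.encard ≤ 1 := by
      rw [Set.encard_le_one_iff]
      rintro (y | y | y) (z | z | z) hy hz <;> simp only [Set.mem_ofPred_eq, Gad, Att] at hy hz
    have h2 : {y | Gad r f g y (Sum.inr (Sum.inr z))}.encard ≤ 1 := by
      rw [Set.encard_le_one_iff]
      rintro (y | y | y) (z | z | z) hy hz <;> simp only [Set.mem_ofPred_eq, Gad, Att] at hy hz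
      rw [hy, hz]
    calc _ ≤ (1 : ℕ∞) + 1 := add_le_add h1 h2
      _ ≤ 3 := by norm_num

end Pool.Agent.MP_fe3493
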